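import Pool.Agent.H28.N6.Targets

/-!
# Row LCO: forms near a nonsingular form are equivalent
-/

set_option autoImplicit false

open MeasureTheory Pool.Agent.H28.N6

namespace Pool.Agent.H99.N6D

section

variable {F : Type} [NontriviallyNormedField F] {n : ℕ}

/-- the product `Y G⁻¹ Y'` -/
def pr (I : Fin n → Fin n → F) (Y Y' : Fin n → Fin n → F) : Fin n → Fin n → F :=
  fun i j => ∑ k, ∑ l, Y i k * (I k l * Y' l j)

theorem pr_norm (I Y Y' : Fin n → Fin n → F) :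
    ‖pr I Y Y'‖ ≤ (n * (n * ‖I‖)) * (‖Y‖ * ‖Y'‖) := by
  rw [pi_norm_le_iff_of_nonneg (by positivity)]
  intro i
  rw [pi_norm_le_iff_of_nonneg (by positivity)]
  intro j
  unfold pr
  have h1 : ∀ k l, ‖Y i k * (I k l * Y' l j)‖ ≤ ‖I‖ * (‖Y‖ * ‖Y'‖) := by
    intro k l
    have h2 : ‖Y i k‖ ≤ ‖Y‖ := (norm_le_pi_norm (Y i) k).trans (norm_le_pi_norm Y i)
    have h3 : ‖I k l‖ ≤ ‖I‖ := (norm_le_pi_norm (I k) l).trans (norm_le_pi_norm I k)
    have h4 : ‖Y' l j‖ ≤ ‖Y'‖ := (norm_le_pi_norm (Y' l) j).trans (norm_le_pi_norm Y' l)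
    rw [norm_mul, norm_mul]
    calc ‖Y i k‖ * (‖I k l‖ * ‖Y' l j‖) ≤ ‖Y‖ * (‖I‖ * ‖Y'‖) := by gcongr
      _ = ‖I‖ * (‖Y‖ * ‖Y'‖) := by ring
  calc ‖∑ k, ∑ l, Y i k * (I k l * Y' l j)‖ ≤ ∑ k : Fin n, ∑ l : Fin n, ‖I‖ * (‖Y‖ * ‖Y'‖) := by
        refine (norm_sum_le _ _).trans (Finset.sum_le_sum fun k _ => ?_)
        exact (norm_sum_le _ _).trans (Finset.sum_le_sum fun l _ => h1 k l)
    _ = (n * (n * ‖I‖)) * (‖Y‖ * ‖Y'‖) := by
        rw [Finset.sum_const, Finset.sum_const, Finset.card_univ, Fintype.card_fin,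
          nsmul_eq_mul, nsmul_eq_mul]
        ring

theorem pr_sub (I Y Y' : Fin n → Fin n → F) :
    pr I Y Y - pr I Y' Y' = pr I (Y - Y') Y + pr I Y' (Y - Y') := by
  funext i j
  simp only [pr, Pi.sub_apply, Pi.add_apply, ← Finset.sum_sub_distrib, ← Finset.sum_add_distrib]
  refine Finset.sum_congr rfl fun k _ => Finset.sum_congr rfl fun l _ => ?_
  ring

theorem pr_symm (I Y : Fin n → Fin n → F) (hI : ∀ i j, I i j = I j i)
    (hY : ∀ i j, Y i j = Y j i) (i j : Fin n) : pr I Y Y i j = pr I Y Y j i := by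
  unfold pr
  rw [Finset.sum_comm]
  refine Finset.sum_congr rfl fun k _ => Finset.sum_congr rfl fun l _ => ?_
  rw [hY i l, hI l k, hY k j]
  ring

/-- solution of `2 Y + Y G⁻¹ Y = Δ` -/
theorem solve [CompleteSpace F] (h2 : (2 : F) ≠ 0) (I : Fin n → Fin n → F)
    (hI : ∀ i j, I i j = I j i) (ρ₀ : ℝ) (hρ₀ : 0 < ρ₀) :
    ∃ δ : ℝ, 0 < δ ∧ ∀ Δ : Fin n → Fin n → F, (∀ i j, Δ i j = Δ j i) → ‖Δ‖ ≤ δ →
      ∃ Y : Fin n → Fin n → F, (∀ i j, Y i j = Y j i) ∧ ‖Y‖ ≤ ρ₀ ∧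
        ∀ i j, 2 * Y i j + pr I Y Y i j = Δ i j := by
  set C : ℝ := n * (n * ‖I‖) with hC
  have hC0 : 0 ≤ C := by positivity
  set b : ℝ := ‖(2 : F)⁻¹‖ with hb
  have hb0 : 0 < b := norm_pos_iff.2 (inv_ne_zero h2)
  set ρ : ℝ := min ρ₀ (1 / (4 * b * (C + 1))) with hρ
  have hρ0 : 0 < ρ := lt_min hρ₀ (by positivity)
  have hρ1 : b * C * ρ ≤ 1 / 4 := by
    have h1 : ρ ≤ 1 / (4 * b * (C + 1)) := min_le_right _ _
    calc b * C * ρ ≤ b * (C + 1) * (1 / (4 * b * (C + 1))) := by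
          gcongr
          linarith
      _ = 1 / 4 := by field_simp
  refine ⟨ρ / (2 * b), by positivity, fun Δ hΔ hΔn => ?_⟩
  set T : (Fin n → Fin n → F) → (Fin n → Fin n → F) := fun Y => (2 : F)⁻¹ • (Δ - pr I Y Y)
    with hT
  set s : Set (Fin n → Fin n → F) := {Y | (∀ i j, Y i j = Y j i) ∧ ‖Y‖ ≤ ρ} with hs
  have hclosed : IsClosed s := by
    have h1 : s = (⋂ i, ⋂ j, {Y : Fin n → Fin n → F | Y i j = Y j i}) ∩ {Y | ‖Y‖ ≤ ρ} := by
      ext Y
      simp only [hs, Set.mem_ofPred_eq, Set.mem_inter_iff, Set.mem_iInter]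
    rw [h1]
    refine IsClosed.inter (isClosed_iInter fun i => isClosed_iInter fun j => ?_) ?_
    · exact isClosed_eq (by fun_prop) (by fun_prop)
    · exact isClosed_le continuous_norm continuous_const
  have hmap : Set.MapsTo T s s := by
    rintro Y ⟨hY1, hY2⟩
    refine ⟨fun i j => ?_, ?_⟩
    · show (2 : F)⁻¹ • (Δ i j - pr I Y Y i j) = (2 : F)⁻¹ • (Δ j i - pr I Y Y j i)
      rw [hΔ i j, pr_symm I Y hI hY1 i j]
    · show ‖(2 : F)⁻¹ • (Δ - pr I Y Y)‖ ≤ ρ
      rw [norm_smul]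
      calc ‖(2 : F)⁻¹‖ * ‖Δ - pr I Y Y‖ ≤ b * (ρ / (2 * b) + C * (ρ * ρ)) := by
            refine mul_le_mul_of_nonneg_left ((norm_sub_le _ _).trans (add_le_add hΔn ?_)) hb0.le
            refine (pr_norm I Y Y).trans ?_
            gcongr
        _ = ρ / 2 + b * C * ρ * ρ := by field_simp
        _ ≤ ρ / 2 + 1 / 4 * ρ := by gcongr
        _ ≤ ρ := by linarith
  have hcon : ContractingWith (1 / 2) (hmap.restrict T s s) := by
    refine ⟨by norm_num, LipschitzWith.of_dist_le_mul fun x y => ?_⟩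
    obtain ⟨x, hx⟩ := x
    obtain ⟨y, hy⟩ := y
    rw [Subtype.dist_eq, Subtype.dist_eq]
    show dist (T x) (T y) ≤ _ * dist x y
    rw [dist_eq_norm, dist_eq_norm]
    have h1 : T x - T y = (2 : F)⁻¹ • (pr I (y - x) y + pr I x (y - x)) := by
      rw [← pr_sub, hT]
      show (2 : F)⁻¹ • (Δ - pr I x x) - (2 : F)⁻¹ • (Δ - pr I y y) = _
      rw [← smul_sub]
      congr 1
      abel
    rw [h1, norm_smul]
    have h2' : ‖pr I (y - x) y + pr I x (y - x)‖ ≤ C * (‖x - y‖ * ρ) + C * (ρ * ‖x - y‖) := by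
      refine (norm_add_le _ _).trans (add_le_add ?_ ?_)
      · refine (pr_norm I _ _).trans ?_
        rw [norm_sub_rev y x]
        have := hy.2
        gcongr
      · refine (pr_norm I _ _).trans ?_
        rw [norm_sub_rev y x]
        have := hx.2
        gcongr
    calc ‖(2 : F)⁻¹‖ * ‖pr I (y - x) y + pr I x (y - x)‖ ≤
          b * (C * (‖x - y‖ * ρ) + C * (ρ * ‖x - y‖)) := mul_le_mul_of_nonneg_left h2' hb0.le
      _ = 2 * (b * C * ρ) * ‖x - y‖ := by ring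
      _ ≤ 2 * (1 / 4) * ‖x - y‖ := by gcongr
      _ = ((1 / 2 : NNReal) : ℝ) * ‖x - y‖ := by
        push_cast
        ring
  have h0 : (0 : Fin n → Fin n → F) ∈ s := ⟨fun _ _ => rfl, by rw [norm_zero]; exact hρ0.le⟩
  obtain ⟨Y, hYs, hfix, -⟩ := ContractingWith.exists_fixedPoint' hclosed.isComplete hmap hcon h0
    (edist_ne_top _ _)
  refine ⟨Y, hYs.1, hYs.2.trans (min_le_left _ _), fun i j => ?_⟩
  have h1 : T Y = Y := hfix
  have h3 : (2 : F)⁻¹ * (Δ i j - pr I Y Y i j) = Y i j := congrFun (congrFun h1 i) j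
  rw [← h3]
  field_simp
  ring

theorem norm_one_of [IsUltrametricDist F] {x : F} (h : ‖x - 1‖ < 1) : ‖x‖ = 1 := by
  refine le_antisymm ?_ ?_
  · have h1 : x = (x - 1) + 1 := by ring
    rw [h1]
    refine (IsUltrametricDist.norm_add_le_max _ _).trans (max_le h.le ?_)
    rw [norm_one]
  · by_contra hlt
    rw [not_le] at hlt
    have h1 : (1 : F) = x + -(x - 1) := by ring
    have h2 : ‖(1 : F)‖ ≤ max ‖x‖ ‖-(x - 1)‖ := by
      conv_lhs => rw [h1]
      exact IsUltrametricDist.norm_add_le_max _ _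
    rw [norm_one, norm_neg] at h2
    exact absurd h2 (not_le.2 (max_lt hlt h))

end

theorem pf_LCO : T_LCO := by
  intro F _ _ _ h2 n G hG hdet
  have hGu : IsUnit G.det := isUnit_iff_ne_zero.2 hdet
  have hIs : (G⁻¹).transpose = G⁻¹ := by rw [Matrix.transpose_nonsing_inv, hG]
  have hI : ∀ i j, G⁻¹ i j = G⁻¹ j i := fun i j => by
    have := congrFun (congrFun hIs i) j
    exact this.symm
  -- a neighbourhood of the unit matrix
  have hcont : Continuous fun M : Fin n → Fin n → F => (Matrix.of M).det :=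
    Continuous.matrix_det continuous_id
  have hc1 := (Metric.continuous_iff.1 hcont) (fun i j => (1 : Matrix (Fin n) (Fin n) F) i j) 1
    one_pos
  obtain ⟨ε, hε, hε'⟩ := hc1
  have hof1 : (Matrix.of fun i j => (1 : Matrix (Fin n) (Fin n) F) i j).det = 1 :=
    Matrix.det_one
  set c : ℝ := n * ‖(fun i j => G⁻¹ i j : Fin n → Fin n → F)‖ with hc
  have hc0 : 0 ≤ c := by positivity
  set ρ₀ : ℝ := min (ε / 2) (1 / 2) / (c + 1) with hρ₀
  have hρ₀' : 0 < ρ₀ := by positivity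
  have hcρ : c * ρ₀ ≤ min (ε / 2) (1 / 2) := by
    rw [hρ₀, mul_div_assoc']
    rw [div_le_iff₀ (by positivity)]
    have : 0 ≤ min (ε / 2) (1 / 2) := by positivity
    nlinarith
  obtain ⟨δ, hδ, hsol⟩ := solve h2 (fun i j => G⁻¹ i j) hI ρ₀ hρ₀'
  refine ⟨δ, hδ, fun G' hG' hclose => ?_⟩
  obtain ⟨Y, hYs, hYn, hY⟩ := hsol (fun i j => G' i j - G i j) (fun i j => by
    have e1 : G' i j = G' j i := congrFun (congrFun hG' j) i
    have e2 : G i j = G j i := congrFun (congrFun hG j) i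
    rw [e1, e2]) (by
    rw [pi_norm_le_iff_of_nonneg hδ.le]
    intro i
    rw [pi_norm_le_iff_of_nonneg hδ.le]
    exact fun j => (hclose i j).le)
  set YM : Matrix (Fin n) (Fin n) F := Matrix.of Y with hYM
  have hYMs : YM.transpose = YM := by
    ext i j
    exact hYs j i
  have hentry : ∀ i j, ‖(G⁻¹ * YM) i j‖ ≤ c * ρ₀ := by
    intro i j
    rw [Matrix.mul_apply]
    calc ‖∑ k, G⁻¹ i k * YM k j‖ ≤ ∑ k : Fin n, ‖(fun i j => G⁻¹ i j : Fin n → Fin n → F)‖ * ρ₀ := by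
          refine (norm_sum_le _ _).trans (Finset.sum_le_sum fun k _ => ?_)
          rw [norm_mul]
          have e1 : ‖G⁻¹ i k‖ ≤ ‖(fun i j => G⁻¹ i j : Fin n → Fin n → F)‖ :=
            (norm_le_pi_norm (fun j => G⁻¹ i j) k).trans
              (norm_le_pi_norm (fun i j => G⁻¹ i j : Fin n → Fin n → F) i)
          have e2 : ‖YM k j‖ ≤ ρ₀ :=
            ((norm_le_pi_norm (Y k) j).trans (norm_le_pi_norm Y k)).trans hYn
          gcongr
      _ = c * ρ₀ := by
          rw [Finset.sum_const, Finset.card_univ, Fintype.card_fin, nsmul_eq_mul, hc]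
          ring
  refine ⟨1 + G⁻¹ * YM, ⟨fun i j => ?_, ?_⟩, ?_⟩
  · rw [Matrix.add_apply]
    refine (IsUltrametricDist.norm_add_le_max _ _).trans (max_le ?_ ?_)
    · rw [Matrix.one_apply]
      split_ifs
      · rw [norm_one]
      · rw [norm_zero]
        exact zero_le_one
    · refine ((hentry i j).trans hcρ).trans ((min_le_right _ _).trans (by norm_num))
  · refine norm_one_of ?_
    have h3 := hε' (fun i j => (1 + G⁻¹ * YM) i j) (by
      rw [dist_eq_norm]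
      refine lt_of_le_of_lt ?_ (half_lt_self hε)
      rw [pi_norm_le_iff_of_nonneg (by positivity)]
      intro i
      rw [pi_norm_le_iff_of_nonneg (by positivity)]
      intro j
      have e1 : ((fun i j => (1 + G⁻¹ * YM) i j : Fin n → Fin n → F) -
          fun i j => (1 : Matrix (Fin n) (Fin n) F) i j) i j = (G⁻¹ * YM) i j := by
        show (1 + G⁻¹ * YM) i j - (1 : Matrix (Fin n) (Fin n) F) i j = _
        rw [Matrix.add_apply]
        ring
      rw [e1]
      exact ((hentry i j).trans hcρ).trans (min_le_left _ _))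
    rw [dist_eq_norm] at h3
    have e2 : (Matrix.of fun i j => (1 + G⁻¹ * YM) i j).det = (1 + G⁻¹ * YM).det := rfl
    rw [hof1] at h3
    exact h3
  · have e1 : (1 + G⁻¹ * YM).transpose = 1 + YM * G⁻¹ := by
      rw [Matrix.transpose_add, Matrix.transpose_one, Matrix.transpose_mul, hIs, hYMs]
    have e2 : (1 + YM * G⁻¹) * G * (1 + G⁻¹ * YM) = G + (2 : F) • YM + YM * (G⁻¹ * YM) := by
      have e3 : G⁻¹ * G = 1 := Matrix.nonsing_inv_mul G hGu
      have e4 : G * G⁻¹ = 1 := Matrix.mul_nonsing_inv G hGu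
      have e5 : (1 + YM * G⁻¹) * G = G + YM := by
        rw [add_mul, one_mul, Matrix.mul_assoc, e3, mul_one]
      rw [e5, mul_add, mul_one, add_mul, ← Matrix.mul_assoc G, e4, one_mul, two_smul]
      abel
    rw [e1, e2]
    ext i j
    rw [Matrix.add_apply, Matrix.add_apply, Matrix.smul_apply, smul_eq_mul]
    have e6 : (YM * (G⁻¹ * YM)) i j = pr (fun i j => G⁻¹ i j) Y Y i j := by
      rw [Matrix.mul_apply]
      unfold pr
      refine Finset.sum_congr rfl fun k _ => ?_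
      rw [Matrix.mul_apply, Finset.mul_sum]
      rfl
    rw [e6]
    have e7 := hY i j
    have e8 : YM i j = Y i j := rfl
    rw [e8]
    linear_combination e7

end Pool.Agent.H99.N6D
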