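import Pool.Agent.H28.N6.Lib

/-!
# Row NF0: block form at a simple root of the determinant
-/

set_option autoImplicit false

open MeasureTheory Pool.Agent.H28.N6 Matrix

namespace Pool.Agent.H99.N6D

section

variable {F : Type} [NontriviallyNormedField F]

/-- a nonzero vector can be normalised -/
theorem normalise (v : Fin 4 → F) (hv : v ≠ 0) : ∃ (c : F) (i0 : Fin 4), c ≠ 0 ∧ (c • v) i0 = 1 ∧
    ∀ i, ‖(c • v) i‖ ≤ 1 := by
  obtain ⟨i0, -, h⟩ := Finset.exists_max_image Finset.univ (fun i => ‖v i‖) ⟨0, Finset.mem_univ 0⟩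
  have hne : v i0 ≠ 0 := by
    intro h0
    refine hv (funext fun i => ?_)
    have h1 : ‖v i‖ ≤ ‖v i0‖ := h i (Finset.mem_univ i)
    rw [h0, norm_zero] at h1
    exact norm_le_zero_iff.1 h1
  refine ⟨(v i0)⁻¹, i0, inv_ne_zero hne, ?_, fun i => ?_⟩
  · show (v i0)⁻¹ * v i0 = 1
    exact inv_mul_cancel₀ hne
  · show ‖(v i0)⁻¹ * v i‖ ≤ 1
    rw [norm_mul, norm_inv, inv_mul_le_iff₀ (norm_pos_iff.2 hne), mul_one]
    exact h i (Finset.mem_univ i)

/-- a unimodular matrix with a given first column -/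
theorem firstCol (v : Fin 4 → F) (i0 : Fin 4) (h0 : v i0 = 1) (h1 : ∀ i, ‖v i‖ ≤ 1) :
    ∃ U : Matrix (Fin 4) (Fin 4) F, InGL U ∧ ∀ i, U i 0 = v i := by
  refine ⟨((1 : Matrix (Fin 4) (Fin 4) F).updateCol i0 v).submatrix id (Equiv.swap 0 i0),
    ⟨fun i j => ?_, ?_⟩, fun i => ?_⟩
  · rw [Matrix.submatrix_apply, Matrix.updateCol_apply]
    split_ifs
    · exact h1 i
    · rw [Matrix.one_apply]
      split_ifs
      · rw [norm_one]
      · rw [norm_zero]
        exact zero_le_one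
  · rw [Matrix.det_permute', ← Matrix.cramer_apply, Matrix.cramer_one]
    show ‖(((Equiv.swap 0 i0).sign : ℤˣ) : ℤ) * v i0‖ = 1
    rw [h0, mul_one]
    rcases Int.units_eq_one_or (Equiv.swap (0 : Fin 4) i0).sign with h | h <;> rw [h] <;> simp
  · rw [Matrix.submatrix_apply, Equiv.swap_apply_left, Matrix.updateCol_self]
    rfl

end

theorem tail4 {F : Type} (z : Fin 4 → F) : ![z 1, z 2, z 3] = Fin.tail z := by
  funext i
  fin_cases i <;> rfl

theorem qf4 {F : Type} [Field F] (H : Matrix (Fin 4) (Fin 4) F) (hH : Hᵀ = H) (z : Fin 4 → F) :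
    qf H z = H 0 0 * z 0 ^ 2 +
      2 * z 0 * dotProduct (fun j : Fin 3 => H 0 j.succ) ![z 1, z 2, z 3] +
      qf (H.submatrix Fin.succ Fin.succ) ![z 1, z 2, z 3] := by
  have hs : ∀ i j, H i j = H j i := fun i j => (congrFun (congrFun hH j) i)
  rw [tail4]
  simp only [qf, dotProduct, mulVec, Fin.sum_univ_succ, Matrix.submatrix_apply, Fin.tail]
  simp only [hs (Fin.succ _) 0]
  simp
  ring

theorem pf_NF0 (hDER : T_DER) : T_NF0 := by
  intro F _ _ _ h2 A B hA hB r hr hr' hiso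
  set S : Matrix (Fin 4) (Fin 4) F := A + r • B with hS
  have hSt : Sᵀ = S := by rw [hS, transpose_add, transpose_smul, hA, hB]
  rw [dp_eval] at hr
  obtain ⟨w, hw, hw0⟩ := Matrix.exists_mulVec_eq_zero_iff.2 hr
  obtain ⟨c, i0, hc, hi0, hle⟩ := normalise w hw
  obtain ⟨U, hU, hUc⟩ := firstCol (c • w) i0 hi0 hle
  have hUd : U.det ≠ 0 := by
    intro h0
    have h1 := hU.2
    rw [h0, norm_zero] at h1
    exact zero_ne_one h1
  set G : Matrix (Fin 4) (Fin 4) F := Uᵀ * S * U with hG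
  set H : Matrix (Fin 4) (Fin 4) F := Uᵀ * B * U with hH
  have hGt : Gᵀ = G := symm_congr U S hSt
  have hHt : Hᵀ = H := symm_congr U B hB
  have hcol : ∀ i, G i 0 = 0 := by
    intro i
    have h1 : G i 0 = ((Uᵀ * S) *ᵥ (c • w)) i := by
      rw [hG, Matrix.mul_apply]
      show _ = ∑ k, (Uᵀ * S) i k * (c • w) k
      refine Finset.sum_congr rfl fun k _ => ?_
      rw [hUc k]
    rw [h1, ← mulVec_mulVec, mulVec_smul, hw0, smul_zero, mulVec_zero]
    rfl
  have hrow : ∀ j, G 0 j = 0 := by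
    intro j
    have h1 : G 0 j = G j 0 := congrFun (congrFun hGt j) 0
    rw [h1, hcol]
  have hder := (hDER F 3 G H hrow hcol).2
  have hne : (dp G H).derivative.eval 0 ≠ 0 := by
    rw [hG, hH, dp_congr_eval, (dp_shift_eval A B r).2]
    exact mul_ne_zero (pow_ne_zero 2 hUd) hr'
  rw [hder] at hne
  have hqG : ∀ z, qf G z = qf (G.submatrix Fin.succ Fin.succ) (Fin.tail z) := by
    intro z
    rw [qf_block G (fun i => hrow _) (fun i => hcol _), hrow 0, zero_mul, zero_add]
  refine ⟨U, G.submatrix Fin.succ Fin.succ, H.submatrix Fin.succ Fin.succ,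
    fun j => H 0 j.succ, H 0 0, hU, ?_, ?_, ?_, left_ne_zero_of_mul hne, ?_⟩
  · rw [transpose_submatrix, hGt]
  · rw [transpose_submatrix, hHt]
  · intro z' hz' h0
    refine hiso ((isoSp_congr U S hUd 2).1 ?_)
    refine isoSp_pair G (Pi.single 0 1) (Fin.cons 0 z') ?_ ?_ ?_ ?_
    · rw [LinearIndependent.pair_iff]
      intro s t hst
      have h1 : s = 0 := by
        have := congrFun hst 0
        simpa using this
      rw [h1, zero_smul, zero_add] at hst
      refine ⟨h1, ?_⟩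
      by_contra ht
      refine hz' (funext fun i => ?_)
      have h3 := congrFun hst i.succ
      have h4 : t * z' i = 0 := by simpa using h3
      exact (mul_eq_zero.1 h4).resolve_left ht
    · rw [hqG]
      have h1 : Fin.tail (Pi.single 0 1 : Fin 4 → F) = 0 := by
        funext i
        show (Pi.single 0 1 : Fin 4 → F) i.succ = 0
        rw [Pi.single_eq_of_ne (Fin.succ_ne_zero i)]
      rw [h1, qf_zero]
    · rw [hqG, Fin.tail_cons]
      exact h0
    · rw [hqG]
      have h1 : Fin.tail ((Pi.single 0 1 : Fin 4 → F) + Fin.cons 0 z') = z' := by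
        funext i
        show (Pi.single 0 1 : Fin 4 → F) i.succ + (Fin.cons 0 z' : Fin 4 → F) i.succ = z' i
        rw [Pi.single_eq_of_ne (Fin.succ_ne_zero i), zero_add, Fin.cons_succ]
      rw [h1]
      exact h0
  · intro z
    rw [← qf_congr U S z, ← qf_congr U B z, tail4]
    refine ⟨hqG z, ?_⟩
    rw [← tail4]
    exact qf4 H hHt z

end Pool.Agent.H99.N6D
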